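import Mathlib

namespace Pool.Agent.Results.MP_61ae3e_pr.NotMonotone

open Finset

variable {n : ℕ} (G : SimpleGraph (Fin n)) [DecidableRel G.Adj]

/-- the neighbours of `v` to which a ball at `v` may move: those of minimum load among the
neighbours of `v`, provided this load is smaller than the load of `v` -/
def best (x : Fin n → ℕ) (v : Fin n) : Finset (Fin n) :=
  univ.filter fun u => G.Adj v u ∧ x u < x v ∧ ∀ w, G.Adj v w → x u ≤ x w

/-- `place G x k v w`: probability that a ball now at `v`, with loads `x`, is placed at `w`.
The counter `k` bounds the number of moves; each move lowers the load, so `k = x v` suffices. -/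
def place (x : Fin n → ℕ) : ℕ → Fin n → Fin n → ℚ
  | 0 => fun v w => if v = w then 1 else 0
  | k + 1 => fun v w =>
    if best G x v = ∅ then (if v = w then 1 else 0)
    else (∑ u ∈ best G x v, place x k u w) / (best G x v).card

/-- `tail G l m x`: probability that, starting from loads `x` and allocating `m` more balls with
independent uniform birthplaces, the maximum load is at least `l` -/
def tail (l : ℕ) : ℕ → (Fin n → ℕ) → ℚ
  | 0 => fun x => if ∃ v, l ≤ x v then 1 else 0
  | m + 1 => fun x =>
    ∑ w, ((∑ v, place G x (x v) v w) / n) * tail l m (Function.update x w (x w + 1))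

/-- the complete bipartite graph with parts `{0,1}` and `{2,3,4}` -/
def K23 : SimpleGraph (Fin 5) where
  Adj a b := (a.1 < 2 ∧ 2 ≤ b.1) ∨ (b.1 < 2 ∧ 2 ≤ a.1)
  symm := ⟨fun a b h => by tauto⟩
  loopless := ⟨fun a h => by omega⟩

/-- the same graph with the edge `01` added -/
def K23plus : SimpleGraph (Fin 5) where
  Adj a b := a ≠ b ∧ (a.1 < 2 ∨ b.1 < 2)
  symm := ⟨fun a b h => ⟨h.1.symm, h.2.symm⟩⟩
  loopless := ⟨fun a h => h.1 rfl⟩

instance : DecidableRel K23.Adj := fun a b => by unfold K23; infer_instance
instance : DecidableRel K23plus.Adj := fun a b => by unfold K23plus; infer_instance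

theorem result : K23 ≤ K23plus ∧
    tail K23 2 4 (fun _ => 0) = 44 / 625 ∧ tail K23plus 2 4 (fun _ => 0) = 51 / 625 := by
  refine ⟨?_, ?_, ?_⟩
  · intro a b
    revert a b
    decide
  · decide +kernel
  · decide +kernel

end Pool.Agent.Results.MP_61ae3e_pr.NotMonotone
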